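import Pool.Agent.Q299.Marg.Main

/-!
# MP_7fb2f0_pr: the edge marginal `p_e(k)` can decrease in the excess `k`

There is a connected simple graph with 11 vertices and 16 edges and an edge `e` of it with
`p_e(-1) = 10/13 > 49/64 = p_e(0)`; so Q1 is disproved.
-/

namespace Pool.Agent.Results.MP_7fb2f0_pr.MarginalCanDecrease

open Q299.Marg

theorem result :
    (∃ (G : SimpleGraph (Fin 11)) (e : Sym2 (Fin 11)), G.Connected ∧ e ∈ G.edgeSet ∧
      G.edgeSet.ncard = 16 ∧ marginal G e (-1) = 10 / 13 ∧ marginal G e 0 = 49 / 64) ∧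
    ¬ MarginalsNondecreasing :=
  ⟨main, not_nondecreasing⟩

end Pool.Agent.Results.MP_7fb2f0_pr.MarginalCanDecrease
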